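import Pool.Agent.Helper51.AJ.St
import Pool.Agent.Helper51.AJ.Basic

/-!
# Project AJ (MP_d63854_co), module CON: connected sets
-/

set_option autoImplicit false

namespace Pool.Agent.Helper41.AJ

open Pool.Agent.Helper51.AJ

private theorem con1 {V : Type} (B : SimpleGraph V) (S : Set V) (h : Con B S) (T : Set V) (hTS : T ⊆ S)
    (hT : T.Nonempty) (hne : T ≠ S) : Tch B T (S \ T) := by
  by_contra hno
  obtain ⟨t, ht⟩ := hT
  apply hne
  apply Set.Subset.antisymm hTS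
  intro s hs
  have key : ∀ z : S, Relation.ReflTransGen (B.induce S).Adj ⟨t, hTS ht⟩ z → (z : V) ∈ T := by
    intro z hz
    induction hz with
    | refl => exact ht
    | @tail b c hab hbc ih =>
      by_contra hc
      exact hno ⟨b, ih, c, ⟨c.2, hc⟩, hbc⟩
  have h1 : (B.induce S).Reachable ⟨t, hTS ht⟩ ⟨s, hs⟩ := h.preconnected _ _
  rw [SimpleGraph.reachable_iff_reflTransGen] at h1
  exact key _ h1

private theorem con2 {V : Type} [Finite V] (B : SimpleGraph V) (S : Set V) (h : Con B S) (y : V) (hy : y ∈ S)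
    (hS : S ≠ {y}) : ∃ x ∈ S, x ≠ y ∧ Con B (S \ {x}) := by
  obtain ⟨T, ⟨hTS, hTne, hyT, hT⟩, hmax⟩ := Set.exists_max_image
    {T : Set V | T ⊆ S ∧ T ≠ S ∧ y ∈ T ∧ Con B T} Set.ncard (Set.toFinite _)
    ⟨{y}, Set.singleton_subset_iff.2 hy, fun h0 => hS h0.symm, rfl, con_singleton B y⟩
  obtain ⟨a, ha, x, ⟨hxS, hxT⟩, hax⟩ := con1 B S h T hTS ⟨y, hyT⟩ hTne
  have hcon : Con B (T ∪ {x}) := con_union hT (con_singleton B x) ⟨a, ha, x, rfl, hax⟩
  have hall : T ∪ {x} = S := by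
    by_contra hne
    have h1 := hmax (T ∪ {x}) ⟨Set.union_subset hTS (Set.singleton_subset_iff.2 hxS), hne, Or.inl hyT, hcon⟩
    rw [Set.union_singleton, Set.ncard_insert_of_notMem hxT (Set.toFinite _)] at h1
    omega
  refine ⟨x, hxS, fun h0 => hxT (h0 ▸ hyT), ?_⟩
  have h2 : S \ {x} = T := by
    rw [← hall, Set.union_diff_right]
    exact Set.diff_singleton_eq_self hxT
  rw [h2]
  exact hT

private theorem con3 {V : Type} [Finite V] (B : SimpleGraph V) (S : Set V) (h : Con B S) (x : V) (hx : x ∈ S)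
    (y : V) (hy : y ∈ S) (hxy : x ≠ y) : ∃ P Q : Set V, P ∪ Q = S ∧ Disjoint P Q ∧ x ∈ P ∧ y ∈ Q ∧
      Con B P ∧ Con B Q ∧ Tch B P Q := by
  obtain ⟨⟨P, Q⟩, ⟨hPQS, hdis, hxP, hyQ, hP, hQ⟩, hmax⟩ := Set.exists_max_image
    {p : Set V × Set V | p.1 ∪ p.2 ⊆ S ∧ Disjoint p.1 p.2 ∧ x ∈ p.1 ∧ y ∈ p.2 ∧ Con B p.1 ∧ Con B p.2}
    (fun p => (p.1 ∪ p.2).ncard) (Set.toFinite _)
    ⟨({x}, {y}), Set.union_subset (Set.singleton_subset_iff.2 hx) (Set.singleton_subset_iff.2 hy),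
      Set.disjoint_singleton.2 hxy, rfl, rfl, con_singleton B x, con_singleton B y⟩
  have hall : P ∪ Q = S := by
    by_contra hne
    obtain ⟨a, ha, z, ⟨hzS, hz⟩, haz⟩ := con1 B S h (P ∪ Q) hPQS ⟨x, Or.inl hxP⟩ hne
    have hzP : z ∉ P := fun h0 => hz (Or.inl h0)
    have hzQ : z ∉ Q := fun h0 => hz (Or.inr h0)
    rcases ha with ha | ha
    · have h1 := hmax (insert z P, Q) ⟨by
          rw [Set.insert_union]
          exact Set.insert_subset hzS hPQS, Set.disjoint_insert_left.2 ⟨hzQ, hdis⟩,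
        Set.mem_insert_of_mem _ hxP, hyQ, by
          rw [← Set.union_singleton]
          exact con_union hP (con_singleton B z) ⟨a, ha, z, rfl, haz⟩, hQ⟩
      change (insert z P ∪ Q).ncard ≤ (P ∪ Q).ncard at h1
      rw [Set.insert_union, Set.ncard_insert_of_notMem hz (Set.toFinite _)] at h1
      omega
    · have h1 := hmax (P, insert z Q) ⟨by
          rw [Set.union_insert]
          exact Set.insert_subset hzS hPQS, Set.disjoint_insert_right.2 ⟨hzP, hdis⟩,
        hxP, Set.mem_insert_of_mem _ hyQ, hP, by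
          rw [← Set.union_singleton]
          exact con_union hQ (con_singleton B z) ⟨a, ha, z, rfl, haz⟩⟩
      change (P ∪ insert z Q).ncard ≤ (P ∪ Q).ncard at h1
      rw [Set.union_insert, Set.ncard_insert_of_notMem hz (Set.toFinite _)] at h1
      omega
  refine ⟨P, Q, hall, hdis, hxP, hyQ, hP, hQ, ?_⟩
  have hPS : P ≠ S := by
    intro h0
    exact Set.disjoint_left.1 hdis (h0.symm ▸ hy) hyQ
  have h2 := con1 B S h P (hall ▸ Set.subset_union_left) ⟨x, hxP⟩ hPS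
  refine tch_mono h2 (Set.Subset.refl P) ?_
  rintro z ⟨hz1, hz2⟩
  rw [← hall] at hz1
  exact hz1.resolve_left hz2

theorem hCON : StCon := by
  intro V _ B S h
  exact ⟨con1 B S h, con2 B S h, con3 B S h⟩

end Pool.Agent.Helper41.AJ
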